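import Mathlib

namespace Pool.Agent.Results.MP_86b878_co.NotRealizable

open Finset

/-- `a 0 < ... < a (k-1)` are the minimal generators of a numerical semigroup: the additive
submonoid of `ℕ` they generate is cofinite and no `a i` lies in the submonoid generated by the
others. -/
structure IsMinGens {k : ℕ} (a : Fin k → ℕ) : Prop where
  mono : StrictMono a
  cofinite : ((AddSubmonoid.closure (Set.range a) : Set ℕ)ᶜ).Finite
  minimal : ∀ i, a i ∉ AddSubmonoid.closure (a '' {j | j ≠ i})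

/-- The factorizations of `x`. -/
def facts {k : ℕ} (a : Fin k → ℕ) (x : ℕ) : Set (Fin k → ℕ) := {z | ∑ i, z i * a i = x}

/-- `ℓ_0(z)`, the size of the support. -/
def len0 {k : ℕ} (z : Fin k → ℕ) : ℕ := (univ.filter (fun i => 0 < z i)).card

/-- `ℓ_∞(z)`, the largest coordinate. -/
def lenInf {k : ℕ} (z : Fin k → ℕ) : ℕ := univ.sup z

/-- Differences of consecutive elements of a set of naturals. -/
def gaps (L : Set ℕ) : Set ℕ :=
  {d | ∃ c ∈ L, ∃ c' ∈ L, c < c' ∧ (∀ e ∈ L, ¬ (c < e ∧ e < c')) ∧ d = c' - c}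

/-- The delta set of the semigroup generated by `a` for the length function `ℓ`. -/
def delta {k : ℕ} (ℓ : (Fin k → ℕ) → ℕ) (a : Fin k → ℕ) : Set ℕ :=
  ⋃ x ∈ AddSubmonoid.closure (Set.range a), gaps (ℓ '' facts a x)

lemma sum_small {k : ℕ} (s : Finset (Fin k)) (w a : Fin k → ℕ) (m : ℕ)
    (h : ∀ j ∈ s, m ≤ a j) (hs : ∑ j ∈ s, w j * a j < m) : ∑ j ∈ s, w j * a j = 0 := by
  refine Finset.sum_eq_zero (fun j hj => ?_)
  by_contra hne
  have h1 : w j * a j ≤ ∑ j ∈ s, w j * a j :=
    Finset.single_le_sum (f := fun j => w j * a j) (fun _ _ => Nat.zero_le _) hj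
  have h2 : w j ≠ 0 := fun h0 => hne (by simp [h0])
  have h3 : a j ≤ w j * a j := Nat.le_mul_of_pos_left _ (Nat.pos_of_ne_zero h2)
  have := h j hj
  omega

lemma pos_of {k : ℕ} {a : Fin k → ℕ} (h : IsMinGens a) (i : Fin k) : 0 < a i := by
  by_contra h0
  have : a i = 0 := by omega
  exact h.minimal i (this ▸ AddSubmonoid.zero_mem _)

lemma lenInf_single {k : ℕ} (i : Fin k) (n : ℕ) : lenInf (Pi.single i n : Fin k → ℕ) = n := by
  apply le_antisymm
  · refine Finset.sup_le (fun j _ => ?_)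
    by_cases h : j = i
    · subst h; simp
    · simp [h]
  · have := Finset.le_sup (f := (Pi.single i n : Fin k → ℕ)) (Finset.mem_univ i)
    simpa [lenInf] using this

lemma single_mem {k : ℕ} (a : Fin k → ℕ) (i : Fin k) (n : ℕ) :
    (Pi.single i n : Fin k → ℕ) ∈ facts a (n * a i) := by
  show ∑ j, (Pi.single i n : Fin k → ℕ) j * a j = n * a i
  rw [Finset.sum_eq_single i]
  · simp
  · intro j _ hj; simp [hj]
  · simp

lemma big {k : ℕ} (a : Fin (k + 2) → ℕ) (h : IsMinGens a) :
    ∃ d ∈ delta lenInf a, 3 ≤ d := by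
  have hp := pos_of h 0
  have hgt : ∀ j : Fin (k + 2), j ≠ 0 → a 0 + 1 ≤ a j := fun j hj =>
    h.mono (Fin.pos_iff_ne_zero.mpr hj)
  have h01 : a 0 + 1 ≤ a 1 := hgt 1 (by simp)
  set N := 3 * a 1 with hN
  set L := lenInf '' facts a (N * a 0) with hL
  have hNL : N ∈ L := ⟨Pi.single 0 N, single_mem a 0 N, lenInf_single _ _⟩
  have h1L : 3 * a 0 ∈ L := by
    refine ⟨Pi.single 1 (3 * a 0), ?_, lenInf_single _ _⟩
    have := single_mem a 1 (3 * a 0)
    rwa [show 3 * a 0 * a 1 = N * a 0 by rw [hN]; ring] at this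
  have key : ∀ e ∈ L, e < N → e + 3 ≤ N := by
    rintro e ⟨z, hz, rfl⟩ he
    by_contra hcon
    obtain ⟨i, -, hi⟩ := Finset.exists_mem_eq_sup (univ : Finset (Fin (k + 2))) ⟨0, mem_univ _⟩ z
    have hi' : lenInf z = z i := hi
    rw [hi'] at he hcon
    have hz' : ∑ j, z j * a j = N * a 0 := hz
    by_cases hi0 : i = 0
    · subst hi0
      rw [← Finset.add_sum_erase _ _ (mem_univ (0 : Fin (k + 2)))] at hz'
      obtain ⟨t, ht⟩ : ∃ t, N = z 0 + t := ⟨N - z 0, by omega⟩
      have ht1 : 1 ≤ t := by omega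
      have ht2 : t ≤ 2 := by omega
      have hs : ∑ j ∈ univ.erase 0, z j * a j = t * a 0 := by
        rw [ht, add_mul] at hz'; omega
      have hne : ∑ j ∈ univ.erase (0 : Fin (k + 2)), z j * a j ≠ 0 := by
        rw [hs]; positivity
      obtain ⟨j, hj, hj0⟩ := Finset.exists_ne_zero_of_sum_ne_zero hne
      have hjn : j ≠ 0 := (Finset.mem_erase.mp hj).1
      have hzj : z j ≠ 0 := fun h0 => hj0 (by simp [h0])
      have haj := hgt j hjn
      rw [← Finset.add_sum_erase _ _ hj] at hs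
      have hle : t * a 0 ≤ 2 * a 0 := Nat.mul_le_mul_right _ ht2
      have hzj1 : z j = 1 := by
        by_contra hne1
        have : 2 * a j ≤ z j * a j := Nat.mul_le_mul_right _ (by omega)
        omega
      rw [hzj1, one_mul] at hs
      have h0 := sum_small ((univ.erase 0).erase j) z a (a 0)
        (fun l hl => by
          have := hgt l (Finset.mem_erase.mp (Finset.mem_erase.mp hl).2).1
          omega) (by omega)
      have hat : a j = t * a 0 := by omega
      apply h.minimal j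
      rw [hat, ← smul_eq_mul]
      exact AddSubmonoid.nsmul_mem _ (AddSubmonoid.subset_closure (Set.mem_image_of_mem a (show (0 : Fin (k + 2)) ∈ {l | l ≠ j} from hjn.symm))) _
    · have h1 : z i * a i ≤ ∑ j, z j * a j :=
        Finset.single_le_sum (f := fun j => z j * a j) (fun _ _ => Nat.zero_le _) (mem_univ i)
      have h2 : z i * (a 0 + 1) ≤ z i * a i := Nat.mul_le_mul_left _ (hgt i hi0)
      have h3 : (N - 2) * (a 0 + 1) ≤ z i * (a 0 + 1) := Nat.mul_le_mul_right _ (by omega)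
      obtain ⟨u, hu⟩ : ∃ u, N = u + 2 := ⟨N - 2, by omega⟩
      have h4 : N - 2 = u := by omega
      rw [h4] at h3
      have h5 : u * (a 0 + 1) ≤ (u + 2) * a 0 := by rw [← hu]; omega
      nlinarith
  classical
  have hlt : 3 * a 0 < N := by omega
  have hc : Nat.findGreatest (· ∈ L) (N - 1) ∈ L :=
    Nat.findGreatest_spec (P := (· ∈ L)) (m := 3 * a 0) (by omega) h1L
  have hcle : Nat.findGreatest (· ∈ L) (N - 1) ≤ N - 1 := Nat.findGreatest_le _
  set c := Nat.findGreatest (· ∈ L) (N - 1) with hcdef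
  have hk := key c hc (by omega)
  refine ⟨N - c, ?_, by omega⟩
  refine Set.mem_iUnion₂.mpr ⟨N * a 0, ?_, c, hc, N, hNL, by omega, ?_, rfl⟩
  · rw [← smul_eq_mul]
    exact AddSubmonoid.nsmul_mem _ (AddSubmonoid.subset_closure (Set.mem_range_self 0)) _
  · rintro e he ⟨h1, h2⟩
    have := Nat.le_findGreatest (P := (· ∈ L)) (m := e) (n := N - 1) (by omega) he
    omega

lemma small {k : ℕ} (hk : k ≤ 1) (a : Fin k → ℕ) (h : IsMinGens a) : delta lenInf a = ∅ := by
  rw [Set.eq_empty_iff_forall_notMem]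
  intro d hd
  obtain ⟨x, -, c, ⟨z, hz, rfl⟩, c', ⟨z', hz', rfl⟩, hlt, -, -⟩ := Set.mem_iUnion₂.mp hd
  have : z = z' := by
    funext i
    haveI : Subsingleton (Fin k) := by
      rcases k with _ | _ | k
      · infer_instance
      · exact (inferInstance : Subsingleton (Fin 1))
      · omega
    have e1 : ∑ j, z j * a j = x := hz
    have e2 : ∑ j, z' j * a j = x := hz'
    rw [Fintype.sum_subsingleton _ i] at e1 e2
    exact Nat.eq_of_mul_eq_mul_right (pos_of h i) (e1.trans e2.symm)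
  rw [this] at hlt
  exact lt_irrefl _ hlt

theorem result (k : ℕ) (a : Fin k → ℕ) (h : IsMinGens a) :
    delta lenInf a = ∅ ∨ ∃ d ∈ delta lenInf a, 3 ≤ d := by
  rcases k with _ | _ | k
  · exact Or.inl (small (by omega) a h)
  · exact Or.inl (small (by omega) a h)
  · exact Or.inr (big a h)

end Pool.Agent.Results.MP_86b878_co.NotRealizable
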